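import Mathlib

set_option autoImplicit false

namespace Pool.Agent.Results.MP_cf1990_gt.Slit

open Set Metric Filter Topology MeasureTheory Real
open scoped ENNReal Pointwise ContDiff

/-- The standard symplectic form of the plane `ℝ ^ 2 = ℂ`. -/
def om (u v : ℂ) : ℝ := u.re * v.im - u.im * v.re

/-- A symplectomorphism of the plane. -/
def IsSymplecto (ψ : ℂ ≃ ℂ) : Prop :=
  ContDiff ℝ ∞ ψ ∧ ContDiff ℝ ∞ ψ.symm ∧ ∀ z u v, om (fderiv ℝ ψ z u) (fderiv ℝ ψ z v) = om u v

/-- A normalised symplectic capacity on the plane, where the ball and the cylinder coincide. -/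
def IsCapacity (c : Set ℂ → ℝ≥0∞) : Prop :=
  (∀ (A B : Set ℂ) (ψ : ℂ ≃ ℂ), IsSymplecto ψ → ψ '' A ⊆ B → c A ≤ c B) ∧
    (∀ (A : Set ℂ) (t : ℝ), t ≠ 0 → c (t • A) = ENNReal.ofReal (t ^ 2) * c A) ∧
    ∀ r > 0, c (closedBall 0 r) = ENNReal.ofReal (π * r ^ 2)

def Esc (A : Set ℂ) : Prop :=
  ∃ γ : ℝ → ℂ, (∀ t, ∃ v ≠ 0, HasDerivAt γ v t) ∧ Tendsto γ atTop (cocompact ℂ) ∧ ∀ t ≥ 0, γ t ∉ A

open Classical in
noncomputable def c (A : Set ℂ) : ℝ≥0∞ := if Esc A then volume A else ⊤

lemma Esc.pull {A B : Set ℂ} (h : Esc B) (ψ : ℂ ≃ ℂ) (h1 : Differentiable ℝ ψ)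
    (h2 : Differentiable ℝ ψ.symm) (hA : ψ '' A ⊆ B) : Esc A := by
  obtain ⟨γ, a1, a2, a3⟩ := h
  refine ⟨ψ.symm ∘ γ, fun t => ?_, (Homeomorph.mk ψ.symm h2.continuous
    h1.continuous).isClosedEmbedding.tendsto_cocompact.comp a2,
    fun t ht h => a3 t ht (hA ⟨_, h, by simp⟩)⟩
  obtain ⟨v, v0, hv⟩ := a1 t
  have b1 := (h2 _).hasFDerivAt.comp_hasDerivAt t hv
  refine ⟨_, fun e => v0 ?_, b1⟩
  have b2 := (h1 _).hasFDerivAt.comp_hasDerivAt t b1
  rw [e, ← Function.comp_assoc, ψ.self_comp_symm] at b2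
  simpa using hv.unique b2

lemma ray {A : Set ℂ} (R : ℝ) (h : ∀ t : ℝ, R ≤ t → (t : ℂ) ∉ A) : Esc A := by
  refine ⟨fun t => (t + R : ℝ), fun t => ⟨1, one_ne_zero, ?_⟩, ?_, fun t ht => h _ (by linarith)⟩
  · simpa using ((hasDerivAt_id' t).add_const R).ofReal_comp
  · exact Complex.isUniformEmbedding_ofReal.isClosedEmbedding.tendsto_cocompact.comp
      ((tendsto_atTop_add_const_right _ R tendsto_id).mono_right atTop_le_cocompact)

lemma bdd {A : Set ℂ} (h : Bornology.IsBounded A) : c A = volume A := by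
  obtain ⟨R, hR⟩ := h.exists_norm_le
  refine if_pos (ray (R + 1) fun t ht h => ?_)
  have := hR _ h
  rw [Complex.norm_real] at this
  linarith [le_of_abs_le this]

lemma cap : IsCapacity c := by
  refine ⟨fun A B ψ ⟨h1, h2, h3⟩ h => ?_, fun A t ht => ?_, fun r hr => ?_⟩
  · unfold c
    by_cases hB : Esc B
    swap
    · simp [hB]
    have d1 := h1.differentiable (by simp)
    rw [if_pos hB, if_pos (hB.pull ψ d1 (h2.differentiable (by simp)) h), ← measure_toMeasurable B]
    have m := (measurableSet_toMeasurable volume B).preimage h1.continuous.measurable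
    have := lintegral_abs_det_fderiv_eq_addHaar_image volume m
      (fun z _ => (d1 z).hasFDerivAt.hasFDerivWithinAt) ψ.injective.injOn
    have e : ∀ z, (fderiv ℝ ψ z).det = 1 := fun z => by
      have := h3 z 1 Complex.I
      rw [ContinuousLinearMap.det, ← LinearMap.det_toMatrix Complex.basisOneI, Matrix.det_fin_two]
      simp [LinearMap.toMatrix_apply, om] at this ⊢
      linarith
    simp only [e, abs_one, ENNReal.ofReal_one, setLIntegral_one, ψ.image_preimage] at this
    exact this ▸ measure_mono fun z hz => subset_toMeasurable _ _ (h ⟨z, hz, rfl⟩)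
  · have k : ∀ (A : Set ℂ) (t : ℝ), t ≠ 0 → Esc (t • A) → Esc A := fun A t ht h =>
      h.pull (Homeomorph.smulOfNeZero t ht).toEquiv (differentiable_id.const_smul t)
        (differentiable_id.const_smul t⁻¹) subset_rfl
    unfold c
    by_cases hA : Esc A
    · rw [if_pos hA, if_pos (k _ _ (inv_ne_zero ht) (by rwa [inv_smul_smul₀ ht])),
        Measure.addHaar_smul]
      simp
    · rw [if_neg hA, if_neg fun h => hA (k _ _ ht h), ENNReal.mul_top]
      simpa using ht
  · rw [bdd isBounded_closedBall, Complex.volume_closedBall, mul_comm π,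
      ENNReal.ofReal_mul (by positivity), ENNReal.ofReal_pow hr.le, ← NNReal.coe_real_pi,
      ENNReal.ofReal_coe_nnreal]

noncomputable def φ : ℂ ≃ₜ ℂ where
  toFun z := z + (|sin (π * z.re)| : ℝ) * Complex.I
  invFun z := z - (|sin (π * z.re)| : ℝ) * Complex.I
  left_inv z := by simp
  right_inv z := by simp
  continuous_toFun := by fun_prop
  continuous_invFun := by fun_prop

lemma vol (A : Set ℂ) : volume (φ '' A) = volume A := by
  have h1 : MeasurePreserving (fun p : ℝ × ℝ => (p.1, p.2 + |sin (π * p.1)|)) :=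
    (MeasurePreserving.id volume).skew_product (g := fun x y : ℝ => y + |sin (π * x)|)
      (by fun_prop) (.of_forall fun x => map_add_right_eq_self _ _)
  have h2 : MeasurePreserving φ.toMeasurableEquiv := by
    convert (Complex.volume_preserving_equiv_real_prod.symm _).comp
      (h1.comp Complex.volume_preserving_equiv_real_prod) using 1
    ext z
    apply Complex.ext <;> simp [φ]
  rw [← h2.measure_preimage_equiv]
  exact congrArg _ (φ.injective.preimage_image A)

/-- A normalised capacity on the plane and an area-preserving homeomorphism that preserves the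
capacity of all bounded sets but changes the capacity of some open set. -/
theorem result :
    ∃ (c : Set ℂ → ℝ≥0∞) (φ : ℂ ≃ₜ ℂ), IsCapacity c ∧
      (∀ z, ∃ U ∈ 𝓝 z, ∀ V ⊆ U, IsOpen V → c (φ '' V) = c V) ∧
      ∃ V, IsOpen V ∧ c (φ '' V) ≠ c V := by
  refine ⟨c, φ, cap, fun z => ⟨closedBall z 1, closedBall_mem_nhds z one_pos, fun V hV _ => ?_⟩, ?_⟩
  · rw [bdd (isBounded_closedBall.subset hV), bdd (((isCompact_closedBall z 1).image
      φ.continuous).isBounded.subset (image_mono hV)), vol]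
  obtain ⟨W, h1, h2, h3⟩ := (⋃ k : ℕ, sphere (0 : ℂ) k).exists_isOpen_lt_of_lt (μ := volume) ⊤
    (by simp [measure_iUnion_null, Measure.addHaar_sphere])
  let R : Set ℂ := {z | z.im = 0 ∧ 0 ≤ z.re}
  have hR : IsClosed R := (isClosed_eq Complex.continuous_im continuous_const).inter
    (isClosed_le continuous_const Complex.continuous_re)
  refine ⟨W \ R, h2.sdiff hR, ?_⟩
  rw [c, c, if_pos (ray (A := W \ R) 0 fun t ht h => h.2 ⟨by simp, by simpa⟩), if_neg]
  · exact ((measure_mono sdiff_subset).trans_lt h3).ne'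
  rintro ⟨γ, a1, a2, a3⟩
  have a4 : Continuous fun t => φ.symm (γ t) := φ.symm.continuous.comp
    (continuous_iff_continuousAt.2 fun t => (a1 t).choose_spec.2.continuousAt)
  obtain ⟨k, hk⟩ := exists_nat_gt ‖φ.symm (γ 0)‖
  obtain ⟨t, t0, ht⟩ := intermediate_value_Ici (a := 0) (f := fun t => ‖φ.symm (γ t)‖)
    a4.norm.continuousOn (tendsto_norm_cocompact_atTop.comp
      (φ.symm.isClosedEmbedding.tendsto_cocompact.comp a2)) hk.le
  have t1 : 0 < t := lt_of_le_of_ne t0 fun e => hk.ne (e ▸ ht)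
  have b : ∀ᶠ s in 𝓝 t, φ.symm (γ s) ∈ R := by
    filter_upwards [a4.continuousAt.eventually (h2.mem_nhds (h1 (mem_iUnion.2
      ⟨k, mem_sphere_zero_iff_norm.2 ht⟩))), Ici_mem_nhds t1] with s h hs
    by_contra hn
    exact a3 s hs ⟨_, ⟨h, hn⟩, φ.apply_symm_apply _⟩
  have b1 : (γ t).re = k := by
    obtain ⟨c1, c2⟩ := b.self_of_nhds
    rw [← ht]
    simp only
    rw [← Complex.abs_re_eq_norm.2 c1, abs_of_nonneg c2]
    simp [φ]
  have b2 : ∀ᶠ s in 𝓝 t, (γ s).im = |sin (π * (γ s).re)| := b.mono fun s h => by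
    simpa [φ, sub_eq_zero] using h.1
  obtain ⟨v, v0, hv⟩ := a1 t
  have d1 := Complex.reCLM.hasFDerivAt.comp_hasDerivAt t hv
  have d2 := Complex.imCLM.hasFDerivAt.comp_hasDerivAt t hv
  have e : ∀ a : ℝ, |a| ≤ 1 → v.im + a * (cos (π * k) * (π * v.re)) = 0 := fun a ha => by
    refine b1 ▸ IsLocalMin.hasDerivAt_eq_zero ?_ (d2.add ((d1.const_mul π).sin.const_mul a))
    filter_upwards [b2] with s hs
    have := b2.self_of_nhds
    simp only [Pi.add_apply, Function.comp_apply, Complex.imCLM_apply, Complex.reCLM_apply, hs,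
      this, b1, mul_comm π (k : ℝ), sin_nat_mul_pi, abs_zero, mul_zero]
    have := abs_mul a (sin (π * (γ s).re))
    nlinarith [neg_abs_le (a * sin (π * (γ s).re)), abs_nonneg (sin (π * (γ s).re))]
  have e0 := e 0 (by simp)
  have e1 := e 1 (by simp)
  refine v0 (Complex.ext ?_ (by simpa using e0))
  simp only [zero_mul, add_zero] at e0
  simpa [e0, mul_comm π, cos_nat_mul_pi] using e1

end Pool.Agent.Results.MP_cf1990_gt.Slit
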